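import Pool.Agent.H5.CB.J

/-!
# Cubic growth
-/

set_option autoImplicit false

namespace Pool.Agent.H5.CB

open Subgroup Pool.Agent.H5CS

variable {n : ℕ} {G : Type*} [Group G] {x : Fin n → G}

lemma center_trivial [IsSimpleGroup G] (hx : Homog x) (hn : 2 ≤ n) :
    ∀ z : G, (∀ g, z * g = g * z) → z = 1 := by
  intro z hz
  have hc : center G = ⊥ := by
    rcases (inferInstance : (center G).Normal).eq_bot_or_eq_top with h0 | h0
    · exact h0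
    · exfalso
      apply hx.not_comm hn
      intro a b
      have ha : a ∈ center G := by rw [h0]; trivial
      rw [mem_center_iff] at ha
      exact (ha b).symm
  have : z ∈ center G := by
    rw [mem_center_iff]
    exact fun g => (hz g).symm
  rwa [hc, mem_bot] at this

lemma letOf [IsSimpleGroup G] (hx : Homog x) (hn : 2 ≤ n) (i : Fin n) :
    Let (closure (x '' {j | j ≠ i})) (x i) where
  sub := by
    intro m hm l hl
    obtain ⟨φ, h1, h2⟩ := hx.tr {j | j ≠ i} (fun _ => m⁻¹) (fun _ => l)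
      (fun _ => inv_mem hm) (fun _ => hl)
    refine ⟨φ, fix_of h1, ?_⟩
    rw [h2 i (by simp), inv_inv]
  inv := by
    obtain ⟨φ, h1, h2⟩ := hx.inv i
    exact ⟨φ, fix_of (S := {j | j ≠ i}) (fun j hj => h2 j hj), h1⟩
  gen := by
    intro N hL hX
    rw [← top_le_iff, ← hx.gen, closure_le]
    rintro _ ⟨j, rfl⟩
    by_cases hj : j = i
    · subst hj; exact hX
    · exact hL (mem_ne hj)
  mal := fun u hu v hv h => hx.malnormal hn i hu hv h
  ne := by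
    have : ∃ j : Fin n, j ≠ i := by
      by_cases hi : i.val = 0
      · refine ⟨⟨1, by omega⟩, fun h => ?_⟩
        rw [← h] at hi
        simp at hi
      · refine ⟨⟨0, by omega⟩, fun h => ?_⟩
        rw [← h] at hi
        exact hi rfl
    obtain ⟨j, hj⟩ := this
    exact ⟨x j, mem_ne hj, hx.ne_one j⟩
  cen := center_trivial hx hn

lemma swapOf (hx : Homog x) {k : ℕ} (hk : k + 1 < n) :
    ∃ φ : MulAut G, (∀ g ∈ HH x k, φ g = g) ∧ φ (x ⟨k, by omega⟩) = x ⟨k + 1, hk⟩ := by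
  obtain ⟨φ, hφ⟩ := hx.perm (Equiv.swap ⟨k, by omega⟩ ⟨k + 1, hk⟩)
  refine ⟨φ, fix_of fun j hj => ?_, ?_⟩
  · rw [hφ j, Equiv.swap_apply_of_ne_of_ne]
    · intro h
      have h1 := congrArg Fin.val h
      have h2 : j.val < k := hj
      simp only at h1
      omega
    · intro h
      have h1 := congrArg Fin.val h
      have h2 : j.val < k := hj
      simp only at h1
      omega
  · rw [hφ, Equiv.swap_apply_left]

lemma growth3 [Finite G] [IsSimpleGroup G] (hx : Homog x) {k : ℕ}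
    (hk1 : 1 ≤ k) (hk : k + 1 < n) :
    Nat.card (HH x k) ^ 3 + 2 * Nat.card (HH x k) ^ 2 + Nat.card (HH x k) ≤
      Nat.card (HH x (k + 1)) := by
  have hn : 2 ≤ n := by omega
  have hk' : k < n := by omega
  set X : G := x ⟨k, hk'⟩ with hX
  set K : Subgroup G := HH x k with hK
  have hL : Let (closure (x '' {j | j ≠ ⟨k, hk'⟩})) X := letOf hx hn ⟨k, hk'⟩
  have hle : K ≤ closure (x '' {j | j ≠ ⟨k, hk'⟩}) := HH_le_ne (le_refl k)
  have hyL : x ⟨k + 1, hk⟩ ∈ closure (x '' {j | j ≠ ⟨k, hk'⟩}) := by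
    apply mem_ne
    intro h
    have := congrArg Fin.val h
    simp at this
  have hs : ∃ φ : MulAut G, (∀ g ∈ K, φ g = g) ∧ φ X = x ⟨k + 1, hk⟩ := swapOf hx hk
  have hXk : X ∈ HH x (k + 1) := mem_HH (by simp)
  have hm : K ≤ HH x (k + 1) := HH_mono (Nat.le_succ k)
  have hX3 : X * X * X ≠ 1 := by
    intro h
    have h4 := hx.four_le_order hn ⟨k, hk'⟩
    have h3 : x ⟨k, hk'⟩ ^ 3 = 1 := by rw [pow_succ, pow_two]; exact h
    have := orderOf_le_of_pow_eq_one (by norm_num) h3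
    omega
  -- the coincidences
  have c33 : ∀ a ∈ K, ∀ b ∈ K, ∀ c ∈ K, ∀ a' ∈ K, ∀ b' ∈ K, ∀ c' ∈ K,
      a * X * b * X * c = a' * X * b' * X * c' → a = a' ∧ b = b' ∧ c = c' :=
    fun a ha b hb c hc a' ha' b' hb' c' hc' h =>
      hL.inj hle hyL hs ha hb hc ha' hb' hc' h
  have c31 : ∀ a ∈ K, ∀ b ∈ K, ∀ c ∈ K, ∀ a' ∈ K, ∀ b' ∈ K,
      a * X * b * X * c = a' * X * b' → False := by
    intro a ha b hb c hc a' ha' b' hb' h
    refine hL.j2 (hle (K.mul_mem (K.inv_mem ha) ha')) (hle hb)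
      (hle (K.mul_mem hb' (K.inv_mem hc))) (?_ : X * b * X = a⁻¹ * a' * X * (b' * c⁻¹))
    calc X * b * X = a⁻¹ * (a * X * b * X * c) * c⁻¹ := by group
      _ = a⁻¹ * a' * X * (b' * c⁻¹) := by rw [h]; group
  have c3m : ∀ a ∈ K, ∀ b ∈ K, ∀ c ∈ K, ∀ a' ∈ K, ∀ b' ∈ K,
      a * X * b * X * c = a' * X⁻¹ * b' → False := by
    intro a ha b hb c hc a' ha' b' hb' h
    refine hL.j3 hX3 (hle (K.mul_mem (K.inv_mem ha) ha')) (hle hb)
      (hle (K.mul_mem hb' (K.inv_mem hc))) (?_ : X * b * X = a⁻¹ * a' * X⁻¹ * (b' * c⁻¹))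
    calc X * b * X = a⁻¹ * (a * X * b * X * c) * c⁻¹ := by group
      _ = a⁻¹ * a' * X⁻¹ * (b' * c⁻¹) := by rw [h]; group
  have c30 : ∀ a ∈ K, ∀ b ∈ K, ∀ c ∈ K, ∀ w ∈ K, a * X * b * X * c = w → False := by
    intro a ha b hb c hc w hw h
    refine hL.j1 (hle hb) (hle (K.mul_mem (K.mul_mem (K.inv_mem ha) hw) (K.inv_mem hc)))
      (?_ : X * b * X = a⁻¹ * w * c⁻¹)
    calc X * b * X = a⁻¹ * (a * X * b * X * c) * c⁻¹ := by group
      _ = a⁻¹ * w * c⁻¹ := by rw [h]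
  have c11 : ∀ a ∈ K, ∀ b ∈ K, ∀ a' ∈ K, ∀ b' ∈ K,
      a * X * b = a' * X * b' → a = a' ∧ b = b' := by
    intro a ha b hb a' ha' b' hb' h
    have h1 : a'⁻¹ * a * X = X * (b' * b⁻¹) := by
      calc a'⁻¹ * a * X = a'⁻¹ * (a * X * b) * b⁻¹ := by group
        _ = X * (b' * b⁻¹) := by rw [h]; group
    have h2 := hL.mal _ (hle (K.mul_mem (K.inv_mem ha') ha)) _
      (hle (K.mul_mem hb' (K.inv_mem hb))) h1
    exact ⟨(inv_mul_eq_one.mp h2.1).symm, (mul_inv_eq_one.mp h2.2).symm⟩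
  have c1m : ∀ a ∈ K, ∀ b ∈ K, ∀ a' ∈ K, ∀ b' ∈ K, a * X * b = a' * X⁻¹ * b' → False := by
    intro a ha b hb a' ha' b' hb' h
    refine hL.j1 (hle (K.mul_mem hb (K.inv_mem hb'))) (hle (K.mul_mem (K.inv_mem ha) ha'))
      (?_ : X * (b * b'⁻¹) * X = a⁻¹ * a')
    calc X * (b * b'⁻¹) * X = a⁻¹ * (a * X * b) * b'⁻¹ * X := by group
      _ = a⁻¹ * a' := by rw [h]; group
  have c10 : ∀ a ∈ K, ∀ b ∈ K, ∀ w ∈ K, a * X * b = w → False := by
    intro a ha b hb w hw h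
    apply hL.not_mem
    have : X = a⁻¹ * w * b⁻¹ := by rw [← h]; group
    rw [this]
    exact hle (K.mul_mem (K.mul_mem (K.inv_mem ha) hw) (K.inv_mem hb))
  have cmm : ∀ a ∈ K, ∀ b ∈ K, ∀ a' ∈ K, ∀ b' ∈ K,
      a * X⁻¹ * b = a' * X⁻¹ * b' → a = a' ∧ b = b' := by
    intro a ha b hb a' ha' b' hb' h
    have h1 : b⁻¹ * X * a⁻¹ = b'⁻¹ * X * a'⁻¹ := by
      calc b⁻¹ * X * a⁻¹ = (a * X⁻¹ * b)⁻¹ := by group
        _ = b'⁻¹ * X * a'⁻¹ := by rw [h]; group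
    have h2 := c11 _ (K.inv_mem hb) _ (K.inv_mem ha) _ (K.inv_mem hb') _ (K.inv_mem ha') h1
    exact ⟨inv_injective h2.2, inv_injective h2.1⟩
  have cm0 : ∀ a ∈ K, ∀ b ∈ K, ∀ w ∈ K, a * X⁻¹ * b = w → False := by
    intro a ha b hb w hw h
    apply c10 _ (K.inv_mem hb) _ (K.inv_mem ha) _ (K.inv_mem hw)
    rw [← h]; group
  let f : (K × K × K ⊕ K × K) ⊕ (K × K ⊕ K) → HH x (k + 1) := fun t => match t with
    | Sum.inl (Sum.inl p) => ⟨p.1.1 * X * p.2.1.1 * X * p.2.2.1,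
        mul_mem (mul_mem (mul_mem (mul_mem (hm p.1.2) hXk) (hm p.2.1.2)) hXk) (hm p.2.2.2)⟩
    | Sum.inl (Sum.inr p) => ⟨p.1.1 * X * p.2.1, mul_mem (mul_mem (hm p.1.2) hXk) (hm p.2.2)⟩
    | Sum.inr (Sum.inl p) =>
        ⟨p.1.1 * X⁻¹ * p.2.1, mul_mem (mul_mem (hm p.1.2) (inv_mem hXk)) (hm p.2.2)⟩
    | Sum.inr (Sum.inr w) => ⟨w.1, hm w.2⟩
  have hf : Function.Injective f := by
    rintro ((⟨⟨a, ha⟩, ⟨b, hb⟩, ⟨c, hc⟩⟩ | ⟨⟨a, ha⟩, ⟨b, hb⟩⟩) | (⟨⟨a, ha⟩, ⟨b, hb⟩⟩ | ⟨a, ha⟩))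
      ((⟨⟨a', ha'⟩, ⟨b', hb'⟩, ⟨c', hc'⟩⟩ | ⟨⟨a', ha'⟩, ⟨b', hb'⟩⟩) |
        (⟨⟨a', ha'⟩, ⟨b', hb'⟩⟩ | ⟨a', ha'⟩)) h <;>
      simp only [f, Subtype.mk.injEq] at h
    · obtain ⟨h1, h2, h3⟩ := c33 a ha b hb c hc a' ha' b' hb' c' hc' h
      subst h1; subst h2; subst h3; rfl
    · exact (c31 a ha b hb c hc a' ha' b' hb' h).elim
    · exact (c3m a ha b hb c hc a' ha' b' hb' h).elim
    · exact (c30 a ha b hb c hc a' ha' h).elim
    · exact (c31 a' ha' b' hb' c' hc' a ha b hb h.symm).elim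
    · obtain ⟨h1, h2⟩ := c11 a ha b hb a' ha' b' hb' h
      subst h1; subst h2; rfl
    · exact (c1m a ha b hb a' ha' b' hb' h).elim
    · exact (c10 a ha b hb a' ha' h).elim
    · exact (c3m a' ha' b' hb' c' hc' a ha b hb h.symm).elim
    · exact (c1m a' ha' b' hb' a ha b hb h.symm).elim
    · obtain ⟨h1, h2⟩ := cmm a ha b hb a' ha' b' hb' h
      subst h1; subst h2; rfl
    · exact (cm0 a ha b hb a' ha' h).elim
    · exact (c30 a' ha' b' hb' c' hc' a ha h.symm).elim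
    · exact (c10 a' ha' b' hb' a ha h.symm).elim
    · exact (cm0 a' ha' b' hb' a ha h.symm).elim
    · subst h; rfl
  have h := Nat.card_le_card_of_injective f hf
  simp only [Nat.card_sum, Nat.card_prod] at h
  calc Nat.card K ^ 3 + 2 * Nat.card K ^ 2 + Nat.card K
      = Nat.card K * (Nat.card K * Nat.card K) + Nat.card K * Nat.card K +
          (Nat.card K * Nat.card K + Nat.card K) := by ring
    _ ≤ _ := h

lemma card_lower3 [Finite G] [IsSimpleGroup G] (hx : Homog x) {k : ℕ}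
    (hk : k + 3 ≤ n) : 100 ^ (3 ^ k) ≤ Nat.card (HH x (k + 2)) := by
  induction k with
  | zero =>
    have h1 := hx.card_one (by omega)
    have h2 := growth3 hx (k := 1) le_rfl (by omega)
    simp only [pow_zero, pow_one]
    have h3 : (4 : ℕ) ^ 3 + 2 * 4 ^ 2 + 4 ≤
        Nat.card (HH x 1) ^ 3 + 2 * Nat.card (HH x 1) ^ 2 + Nat.card (HH x 1) := by
      gcongr
    calc 100 = 4 ^ 3 + 2 * 4 ^ 2 + 4 := by norm_num
      _ ≤ _ := h3
      _ ≤ _ := h2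
  | succ k ih =>
    have h1 := ih (by omega)
    have h2 := growth3 hx (k := k + 2) (by omega) (by omega)
    calc 100 ^ (3 ^ (k + 1)) = (100 ^ (3 ^ k)) ^ 3 := by rw [← pow_mul, pow_succ]
      _ ≤ Nat.card (HH x (k + 2)) ^ 3 := by gcongr
      _ ≤ Nat.card (HH x (k + 2)) ^ 3 + (2 * Nat.card (HH x (k + 2)) ^ 2 +
            Nat.card (HH x (k + 2))) := Nat.le_add_right _ _
      _ = Nat.card (HH x (k + 2)) ^ 3 + 2 * Nat.card (HH x (k + 2)) ^ 2 +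
            Nat.card (HH x (k + 2)) := by ring
      _ ≤ _ := h2

lemma count3 [Finite G] [IsSimpleGroup G] (hx : Homog x) (hn : 3 ≤ n)
    (E : Subgroup (MulAut G)) (hE : ∀ φ, IsTr x φ → φ ∈ E) :
    100 ^ (2 * n * 3 ^ (n - 3)) ≤ Nat.card E := by
  have h1 := hx.count (by omega) E hE
  obtain ⟨m, rfl⟩ : ∃ m, n = m + 3 := ⟨n - 3, by omega⟩
  have h2 := card_lower3 hx (k := m) le_rfl
  have e1 : m + 3 - 1 = m + 2 := by omega
  have e2 : m + 3 - 3 = m := by omega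
  rw [e1] at h1
  rw [e2]
  calc 100 ^ (2 * (m + 3) * 3 ^ m) = ((100 ^ (3 ^ m)) ^ 2) ^ (m + 3) := by
        rw [← pow_mul, ← pow_mul]; congr 1; ring
    _ ≤ (Nat.card (HH x (m + 2)) ^ 2) ^ (m + 3) := by gcongr
    _ ≤ _ := h1

lemma card3 [Finite G] [IsSimpleGroup G] (hx : Homog x) (hn : 3 ≤ n) :
    100 ^ (2 * 3 ^ (n - 3)) ≤ Nat.card G := by
  obtain ⟨m, rfl⟩ : ∃ m, n = m + 3 := ⟨n - 3, by omega⟩
  have h1 := card_lower3 hx (k := m) le_rfl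
  have h2 : Nat.card (HH x (m + 2)) ^ 2 + Nat.card (HH x (m + 2)) ≤ Nat.card (HH x (m + 3)) :=
    hx.growth (by omega) (k := m + 2) (by omega) (by omega)
  rw [HH_top hx, Subgroup.card_top] at h2
  rw [show m + 3 - 3 = m by omega]
  calc 100 ^ (2 * 3 ^ m) = (100 ^ (3 ^ m)) ^ 2 := by rw [← pow_mul, mul_comm]
    _ ≤ Nat.card (HH x (m + 2)) ^ 2 := by gcongr
    _ ≤ Nat.card (HH x (m + 2)) ^ 2 + Nat.card (HH x (m + 2)) := Nat.le_add_right _ _
    _ ≤ _ := h2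

end Pool.Agent.H5.CB
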