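import Pool.Agent.H5.CB.Rel

/-!
# The remaining coincidences
-/

set_option autoImplicit false

namespace Pool.Agent.H5.CB

open Subgroup

variable {G : Type*} [Group G] {L : Subgroup G} {X : G}

/-- `X b X ∉ L`. -/
lemma Let.j1 (h : Let L X) {b c : G} (hb : b ∈ L) (hc : c ∈ L) (hr : X * b * X = c) : False := by
  obtain ⟨φ, hφ1, hφ2⟩ := h.sub 1 L.one_mem b⁻¹ (L.inv_mem hb)
  have h1 := congrArg φ hr
  simp only [map_mul] at h1
  rw [hφ1 b hb, hφ1 c hc, hφ2] at h1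
  have h2 : X * X = c * b := by
    rw [← h1]; group
  obtain ⟨l, hl, hl1⟩ := h.ne
  obtain ⟨ψ, hψ1, hψ2⟩ := h.sub 1 L.one_mem l hl
  have h3 := congrArg ψ h2
  simp only [map_mul] at h3
  rw [hψ1 b hb, hψ1 c hc, hψ2, ← h2] at h3
  have h4 : l * X = X * l⁻¹ := by
    calc l * X = X⁻¹ * (1 * X * l * (1 * X * l)) * l⁻¹ := by group
      _ = X⁻¹ * (X * X) * l⁻¹ := by rw [h3]
      _ = X * l⁻¹ := by group
  exact hl1 (h.mal l hl l⁻¹ (L.inv_mem hl) h4).1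

/-- `X b X = a X c` is impossible. -/
lemma Let.j2 (h : Let L X) {a b c : G} (ha : a ∈ L) (hb : b ∈ L) (hc : c ∈ L)
    (hr : X * b * X = a * X * c) : False := by
  obtain ⟨φ, hφ1, hφ2⟩ := h.sub 1 L.one_mem b⁻¹ (L.inv_mem hb)
  have h1 := congrArg φ hr
  simp only [map_mul] at h1
  rw [hφ1 b hb, hφ1 c hc, hφ1 a ha, hφ2] at h1
  set b' := b⁻¹ * c * b with hb'
  have hb'L : b' ∈ L := L.mul_mem (L.mul_mem (L.inv_mem hb) hc) hb
  have h2 : X * X = a * X * b' := by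
    calc X * X = 1 * X * b⁻¹ * b * (1 * X * b⁻¹) * b := by group
      _ = a * X * b' := by rw [h1, hb']; group
  obtain ⟨l, hl, hl1⟩ := h.ne
  obtain ⟨ψ, hψ1, hψ2⟩ := h.sub 1 L.one_mem l hl
  have h3 := congrArg ψ h2
  simp only [map_mul] at h3
  rw [hψ1 b' hb'L, hψ1 a ha, hψ2] at h3
  obtain ⟨θ, hθ1, hθ2⟩ := h.sub l hl 1 L.one_mem
  have h4 := congrArg θ h2
  simp only [map_mul] at h4
  rw [hθ1 b' hb'L, hθ1 a ha, hθ2] at h4
  have e3 : X * l * X = a * X * (l * b' * l⁻¹) := by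
    calc X * l * X = 1 * X * l * (1 * X * l) * l⁻¹ := by group
      _ = a * X * (l * b' * l⁻¹) := by rw [h3]; group
  have e4 : X * l * X = l⁻¹ * a * l * X * b' := by
    calc X * l * X = l⁻¹ * (l * X * 1 * (l * X * 1)) := by group
      _ = l⁻¹ * a * l * X * b' := by rw [h4]; group
  have h5 : (l⁻¹ * a * l)⁻¹ * a * X = X * (b' * (l * b' * l⁻¹)⁻¹) := by
    calc (l⁻¹ * a * l)⁻¹ * a * X
        = (l⁻¹ * a * l)⁻¹ * (a * X * (l * b' * l⁻¹)) * (l * b' * l⁻¹)⁻¹ := by group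
      _ = (l⁻¹ * a * l)⁻¹ * (l⁻¹ * a * l * X * b') * (l * b' * l⁻¹)⁻¹ := by rw [← e3, e4]
      _ = X * (b' * (l * b' * l⁻¹)⁻¹) := by group
  have h6 := (h.mal _ (L.mul_mem (L.inv_mem (L.mul_mem (L.mul_mem (L.inv_mem hl) ha) hl)) ha)
    _ (L.mul_mem hb'L (L.inv_mem (L.mul_mem (L.mul_mem hl hb'L) (L.inv_mem hl)))) h5).2
  have h7 : b' = l * b' * l⁻¹ := mul_inv_eq_one.mp h6
  rw [← h7, ← h2] at e3
  apply hl1
  have h8 := mul_right_cancel e3
  exact mul_eq_left.mp h8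

/-- `X b X = a X⁻¹ c` is impossible if `X³ ≠ 1`. -/
lemma Let.j3 (h : Let L X) (hX3 : X * X * X ≠ 1) {a b c : G} (ha : a ∈ L) (hb : b ∈ L)
    (hc : c ∈ L) (hr : X * b * X = a * X⁻¹ * c) : False := by
  obtain ⟨φ, hφ1, hφ2⟩ := h.sub 1 L.one_mem b⁻¹ (L.inv_mem hb)
  have h1 := congrArg φ hr
  simp only [map_mul, map_inv] at h1
  rw [hφ1 b hb, hφ1 c hc, hφ1 a ha, hφ2] at h1
  set a' := a * b with ha'
  set b' := c * b with hb'
  have ha'L : a' ∈ L := L.mul_mem ha hb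
  have hb'L : b' ∈ L := L.mul_mem hc hb
  have h2 : X * X = a' * X⁻¹ * b' := by
    calc X * X = 1 * X * b⁻¹ * b * (1 * X * b⁻¹) * b := by group
      _ = a' * X⁻¹ * b' := by rw [h1, hb', ha']; group
  have key : ∀ l ∈ L, a' * l⁻¹ = l⁻¹ * a' ∧ b' * l⁻¹ = l⁻¹ * b' ∧
      X * l * X = l⁻¹ * a' * X⁻¹ * l⁻¹ * b' := by
    intro l hl
    obtain ⟨ψ, hψ1, hψ2⟩ := h.sub 1 L.one_mem l hl
    have h3 := congrArg ψ h2
    simp only [map_mul, map_inv] at h3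
    rw [hψ1 b' hb'L, hψ1 a' ha'L, hψ2] at h3
    obtain ⟨θ, hθ1, hθ2⟩ := h.sub l hl 1 L.one_mem
    have h4 := congrArg θ h2
    simp only [map_mul, map_inv] at h4
    rw [hθ1 b' hb'L, hθ1 a' ha'L, hθ2] at h4
    have e3 : X * l * X = a' * l⁻¹ * X⁻¹ * (b' * l⁻¹) := by
      calc X * l * X = 1 * X * l * (1 * X * l) * l⁻¹ := by group
        _ = a' * l⁻¹ * X⁻¹ * (b' * l⁻¹) := by rw [h3]; group
    have e4 : X * l * X = l⁻¹ * a' * X⁻¹ * l⁻¹ * b' := by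
      calc X * l * X = l⁻¹ * (l * X * 1 * (l * X * 1)) := by group
        _ = l⁻¹ * a' * X⁻¹ * l⁻¹ * b' := by rw [h4]; group
    have h5 : (l⁻¹ * b') * (b' * l⁻¹)⁻¹ * X = X * ((l⁻¹ * a')⁻¹ * (a' * l⁻¹)) := by
      have h51 : a' * l⁻¹ * X⁻¹ * (b' * l⁻¹) = l⁻¹ * a' * X⁻¹ * (l⁻¹ * b') := by
        rw [← e3, e4]; group
      calc (l⁻¹ * b') * (b' * l⁻¹)⁻¹ * X
          = X * (l⁻¹ * a')⁻¹ * (l⁻¹ * a' * X⁻¹ * (l⁻¹ * b')) * (b' * l⁻¹)⁻¹ * X := by group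
        _ = X * (l⁻¹ * a')⁻¹ * (a' * l⁻¹ * X⁻¹ * (b' * l⁻¹)) * (b' * l⁻¹)⁻¹ * X := by rw [h51]
        _ = X * ((l⁻¹ * a')⁻¹ * (a' * l⁻¹)) := by group
    have hl' := L.inv_mem hl
    have h6 := h.mal _ (L.mul_mem (L.mul_mem hl' hb'L) (L.inv_mem (L.mul_mem hb'L hl')))
      _ (L.mul_mem (L.inv_mem (L.mul_mem hl' ha'L)) (L.mul_mem ha'L hl')) h5
    exact ⟨(inv_mul_eq_one.mp h6.2).symm, (mul_inv_eq_one.mp h6.1).symm, e4⟩
  -- `X³` is central
  have hc1 : ∀ l ∈ L, l * (X * X * X) = X * X * X * l := by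
    intro l hl
    obtain ⟨k1, k2, k3⟩ := key l hl
    -- `(l X)³ = l X³ l⁻¹`
    have q1 : l * X * (l * X) * (l * X) = l * (X * X * X) * l⁻¹ := by
      calc l * X * (l * X) * (l * X) = l * X * (l * (X * l * X)) := by group
        _ = l * X * (a' * X⁻¹ * (l⁻¹ * b')) := by rw [k3]; group
        _ = l * X * (a' * X⁻¹ * (b' * l⁻¹)) := by rw [k2]
        _ = l * X * (a' * X⁻¹ * b') * l⁻¹ := by group
        _ = l * (X * X * X) * l⁻¹ := by rw [← h2]; group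
    have q2 : l * X * (l * X) * (l * X) = X * X * X := by
      calc l * X * (l * X) * (l * X) = l * (X * l * X) * l * X := by group
        _ = a' * X⁻¹ * (l⁻¹ * b') * l * X := by rw [k3]; group
        _ = a' * X⁻¹ * (b' * l⁻¹) * l * X := by rw [k2]
        _ = a' * X⁻¹ * b' * X := by group
        _ = X * X * X := by rw [← h2]
    rw [q2] at q1
    calc l * (X * X * X) = l * (X * X * X) * l⁻¹ * l := by group
      _ = X * X * X * l := by rw [← q1]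
  apply hX3
  apply h.cen
  have hcent : centralizer {X * X * X} = ⊤ := by
    apply h.gen
    · intro l hl
      rw [mem_centralizer_iff]
      intro z hz
      rw [Set.mem_singleton_iff] at hz
      rw [hz]
      exact (hc1 l hl).symm
    · rw [mem_centralizer_iff]
      intro z hz
      rw [Set.mem_singleton_iff] at hz
      rw [hz]
      group
  intro g
  have hg : g ∈ centralizer {X * X * X} := by rw [hcent]; trivial
  rw [mem_centralizer_iff] at hg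
  exact hg _ rfl

end Pool.Agent.H5.CB
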