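import Pool.Agent.H5CS.Count

/-!
# Relations with two occurrences of a letter

`G` a finite simple group, `L` a subgroup, `X` an element, such that `X ↦ m X l` (`m, l` in `L`) and
`X ↦ X⁻¹` induce automorphisms of `G` that fix `L`.
-/

set_option autoImplicit false

namespace Pool.Agent.H5.CB

open Subgroup

/-- the substitutions allowed for the letter `X` over `L`. -/
structure Let {G : Type*} [Group G] (L : Subgroup G) (X : G) : Prop where
  sub : ∀ m ∈ L, ∀ l ∈ L, ∃ φ : MulAut G, (∀ g ∈ L, φ g = g) ∧ φ X = m * X * l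
  inv : ∃ φ : MulAut G, (∀ g ∈ L, φ g = g) ∧ φ X = X⁻¹
  gen : ∀ N : Subgroup G, L ≤ N → X ∈ N → N = ⊤
  mal : ∀ u ∈ L, ∀ v ∈ L, u * X = X * v → u = 1 ∧ v = 1
  ne : ∃ y ∈ L, y ≠ 1
  cen : ∀ z : G, (∀ g, z * g = g * z) → z = 1

variable {G : Type*} [Group G] {L : Subgroup G} {X : G}

lemma Let.not_mem (h : Let L X) : X ∉ L := by
  intro hX
  obtain ⟨y, hy, hy1⟩ := h.ne
  have := (h.mal (X * y * X⁻¹) (L.mul_mem (L.mul_mem hX hy) (L.inv_mem hX)) y hy (by group)).2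
  exact hy1 this

lemma Let.normal [Finite G] (h : Let L X) (S : Subgroup G)
    (h1 : ∀ l ∈ L, ∀ g ∈ S, l * g * l⁻¹ ∈ S) (h2 : ∀ g ∈ S, X * g * X⁻¹ ∈ S) : S.Normal := by
  have hN : normalizer (S : Set G) = ⊤ := by
    apply h.gen
    · intro l hl
      exact mem_normalizer_fintype fun g hg => h1 l hl g hg
    · exact mem_normalizer_fintype fun g hg => h2 g hg
  exact normalizer_eq_top_iff.mp hN

/-- `X² b X⁻² ∈ L` with `b ∈ L` only for `b = 1`. -/
lemma Let.sq [Finite G] [IsSimpleGroup G] (h : Let L X) {b u : G} (hb : b ∈ L) (hu : u ∈ L)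
    (hbu : X * X * b = u * X * X) : b = 1 := by
  let B : Subgroup G :=
    { carrier := {b | b ∈ L ∧ X * X * b * X⁻¹ * X⁻¹ ∈ L}
      mul_mem' := by
        rintro b c ⟨hb, hb'⟩ ⟨hc, hc'⟩
        refine ⟨L.mul_mem hb hc, ?_⟩
        have := L.mul_mem hb' hc'
        have e : X * X * b * X⁻¹ * X⁻¹ * (X * X * c * X⁻¹ * X⁻¹) = X * X * (b * c) * X⁻¹ * X⁻¹ := by
          group
        rwa [e] at this
      one_mem' := ⟨L.one_mem, by
        have e : X * X * 1 * X⁻¹ * X⁻¹ = 1 := by group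
        rw [e]; exact L.one_mem⟩
      inv_mem' := by
        rintro b ⟨hb, hb'⟩
        refine ⟨L.inv_mem hb, ?_⟩
        have := L.inv_mem hb'
        have e : (X * X * b * X⁻¹ * X⁻¹)⁻¹ = X * X * b⁻¹ * X⁻¹ * X⁻¹ := by
          simp only [mul_inv_rev, inv_inv, mul_assoc]
        rwa [e] at this }
  have hB : ∀ b, b ∈ B ↔ b ∈ L ∧ X * X * b * X⁻¹ * X⁻¹ ∈ L := fun b => Iff.rfl
  have e1 : ∀ l ∈ L, ∀ b ∈ B, l * b * l⁻¹ ∈ B := by
    rintro l hl b ⟨hb, hb'⟩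
    obtain ⟨φ, hφ1, hφ2⟩ := h.sub l⁻¹ (L.inv_mem hl) l hl
    have h1 := hφ1 _ hb'
    rw [map_mul, map_mul, map_mul, map_mul, map_inv, hφ1 b hb, hφ2] at h1
    refine ⟨L.mul_mem (L.mul_mem hl hb) (L.inv_mem hl), ?_⟩
    have e : X * X * (l * b * l⁻¹) * X⁻¹ * X⁻¹ =
        l * (l⁻¹ * X * l * (l⁻¹ * X * l) * b * (l⁻¹ * X * l)⁻¹ * (l⁻¹ * X * l)⁻¹) * l⁻¹ := by group
    rw [e, h1]
    exact L.mul_mem (L.mul_mem hl hb') (L.inv_mem hl)
  have e2 : ∀ b ∈ B, X * X * b * X⁻¹ * X⁻¹ ∈ B := by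
    rintro b ⟨hb, hb'⟩
    obtain ⟨φ, hφ1, hφ2⟩ := h.inv
    have h1 := hφ1 _ hb'
    rw [map_mul, map_mul, map_mul, map_mul, map_inv, hφ1 b hb, hφ2] at h1
    refine ⟨hb', ?_⟩
    rw [← h1]
    have e : X * X * (X⁻¹ * X⁻¹ * b * X⁻¹⁻¹ * X⁻¹⁻¹) * X⁻¹ * X⁻¹ = b := by group
    rw [e]
    exact hb
  have e3 : ∀ l ∈ L, ∀ b ∈ B, (X * l * X) * b * (X * l * X)⁻¹ ∈ B := by
    rintro l hl b hbB
    obtain ⟨hb, hb'⟩ := hbB
    obtain ⟨φ, hφ1, hφ2⟩ := h.sub l hl 1 L.one_mem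
    have h1 := hφ1 _ hb'
    rw [map_mul, map_mul, map_mul, map_mul, map_inv, hφ1 b hb, hφ2] at h1
    have e : (X * l * X) * b * (X * l * X)⁻¹ =
        l⁻¹ * (l * X * 1 * (l * X * 1) * b * (l * X * 1)⁻¹ * (l * X * 1)⁻¹) * l⁻¹⁻¹ := by group
    rw [e, h1]
    exact e1 _ (L.inv_mem hl) _ (e2 b ⟨hb, hb'⟩)
  have n1 : ∀ l ∈ L, l ∈ normalizer (B : Set G) := fun l hl =>
    mem_normalizer_fintype fun g hg => e1 l hl g hg
  have n2 : ∀ l ∈ L, X * l * X ∈ normalizer (B : Set G) := fun l hl =>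
    mem_normalizer_fintype fun g hg => e3 l hl g hg
  have n3 : X * X ∈ normalizer (B : Set G) := by
    have := n2 1 L.one_mem
    rwa [mul_one] at this
  have n4 : ∀ l ∈ L, X * l * X⁻¹ ∈ normalizer (B : Set G) := by
    intro l hl
    have := mul_mem (n2 l hl) (inv_mem n3)
    have e : X * l * X * (X * X)⁻¹ = X * l * X⁻¹ := by group
    rwa [e] at this
  let N : Subgroup G :=
    { carrier := {g | g ∈ normalizer (B : Set G) ∧ X * g * X⁻¹ ∈ normalizer (B : Set G)}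
      mul_mem' := by
        rintro b c ⟨hb, hb'⟩ ⟨hc, hc'⟩
        refine ⟨mul_mem hb hc, ?_⟩
        have := mul_mem hb' hc'
        have e : X * b * X⁻¹ * (X * c * X⁻¹) = X * (b * c) * X⁻¹ := by group
        rwa [e] at this
      one_mem' := ⟨one_mem _, by
        have e : X * 1 * X⁻¹ = 1 := by group
        rw [e]; exact one_mem _⟩
      inv_mem' := by
        rintro b ⟨hb, hb'⟩
        refine ⟨inv_mem hb, ?_⟩
        have := inv_mem hb'
        have e : (X * b * X⁻¹)⁻¹ = X * b⁻¹ * X⁻¹ := by group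
        rwa [e] at this }
  have hLN : L ≤ N := fun l hl => ⟨n1 l hl, n4 l hl⟩
  have hNn : N.Normal := by
    apply h.normal
    · rintro l hl g ⟨hg, hg'⟩
      refine ⟨mul_mem (mul_mem (n1 l hl) hg) (inv_mem (n1 l hl)), ?_⟩
      have := mul_mem (mul_mem (n4 l hl) hg') (inv_mem (n4 l hl))
      have e : X * l * X⁻¹ * (X * g * X⁻¹) * (X * l * X⁻¹)⁻¹ = X * (l * g * l⁻¹) * X⁻¹ := by group
      rwa [e] at this
    · rintro g ⟨hg, hg'⟩
      refine ⟨hg', ?_⟩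
      have := mul_mem (mul_mem n3 hg) (inv_mem n3)
      have e : X * X * g * (X * X)⁻¹ = X * (X * g * X⁻¹) * X⁻¹ := by group
      rwa [e] at this
  obtain ⟨y, hy, hy1⟩ := h.ne
  have hNtop : N = ⊤ := by
    rcases hNn.eq_bot_or_eq_top with h0 | h0
    · exfalso
      have := hLN hy
      rw [h0, mem_bot] at this
      exact hy1 this
    · exact h0
  have hBn : B.Normal := by
    rw [← normalizer_eq_top_iff, eq_top_iff]
    intro g _
    have : g ∈ N := by rw [hNtop]; trivial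
    exact this.1
  rcases hBn.eq_bot_or_eq_top with h0 | h0
  · have : b ∈ B := by
      refine ⟨hb, ?_⟩
      rw [hbu]
      have e : u * X * X * X⁻¹ * X⁻¹ = u := by group
      rw [e]
      exact hu
    rwa [h0, mem_bot] at this
  · exfalso
    have : X ∈ B := by rw [h0]; trivial
    exact h.not_mem this.1

/-- uniqueness of the coefficients of `X²`. -/
lemma Let.sq' [Finite G] [IsSimpleGroup G] (h : Let L X) {a b a' b' : G} (ha : a ∈ L)
    (hb : b ∈ L) (ha' : a' ∈ L) (hb' : b' ∈ L)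
    (hab : a * (X * X) * b = a' * (X * X) * b') : a = a' ∧ b = b' := by
  have h1 : X * X * (b * b'⁻¹) = (a⁻¹ * a') * X * X := by
    calc X * X * (b * b'⁻¹) = a⁻¹ * (a * (X * X) * b) * b'⁻¹ := by group
      _ = (a⁻¹ * a') * X * X := by rw [hab]; group
  have h2 := h.sq (L.mul_mem hb (L.inv_mem hb')) (L.mul_mem (L.inv_mem ha) ha') h1
  have h3 : b = b' := mul_inv_eq_one.mp h2
  subst h3
  refine ⟨?_, rfl⟩
  have h4 := mul_right_cancel hab
  exact mul_right_cancel h4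

section two

variable {K : Subgroup G} {y : G}

/-- the key lemma: no relation `X d X = a X² b` over `K` with `d ≠ 1`, if `L` contains another
letter `y` outside `K`. -/
lemma Let.two [Finite G] [IsSimpleGroup G] (h : Let L X) (hKL : K ≤ L) (hy : y ∈ L)
    (hs : ∃ φ : MulAut G, (∀ g ∈ K, φ g = g) ∧ φ X = y) {a b d : G} (ha : a ∈ K) (hb : b ∈ K)
    (hd : d ∈ K) (hr : X * d * X = a * (X * X) * b) : d = 1 := by
  by_contra hd1
  -- `a = b`
  have s1 : X * d⁻¹ * X = a⁻¹ * (X * X) * (d⁻¹ * b⁻¹ * d) := by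
    obtain ⟨φ, hφ1, hφ2⟩ := h.sub 1 L.one_mem d⁻¹ (L.inv_mem (hKL hd))
    have h1 := congrArg φ hr
    simp only [map_mul] at h1
    rw [hφ1 d (hKL hd), hφ1 a (hKL ha), hφ1 b (hKL hb), hφ2] at h1
    calc X * d⁻¹ * X = a⁻¹ * (a * (1 * X * d⁻¹ * (1 * X * d⁻¹)) * b) * (b⁻¹ * d) := by group
      _ = a⁻¹ * (1 * X * d⁻¹ * d * (1 * X * d⁻¹)) * (b⁻¹ * d) := by rw [h1]
      _ = a⁻¹ * (X * X) * (d⁻¹ * b⁻¹ * d) := by group
  have s2 : X * d⁻¹ * X = b⁻¹ * (X * X) * a⁻¹ := by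
    obtain ⟨φ, hφ1, hφ2⟩ := h.inv
    have h1 := congrArg φ hr
    simp only [map_mul] at h1
    rw [hφ1 d (hKL hd), hφ1 a (hKL ha), hφ1 b (hKL hb), hφ2] at h1
    calc X * d⁻¹ * X = (X⁻¹ * d * X⁻¹)⁻¹ := by group
      _ = (a * (X⁻¹ * X⁻¹) * b)⁻¹ := by rw [h1]
      _ = b⁻¹ * (X * X) * a⁻¹ := by simp only [mul_inv_rev, inv_inv, mul_assoc]
  have s3 := h.sq' (L.inv_mem (hKL ha))
    (L.mul_mem (L.mul_mem (L.inv_mem (hKL hd)) (L.inv_mem (hKL hb))) (hKL hd))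
    (L.inv_mem (hKL hb)) (L.inv_mem (hKL ha)) (s1.symm.trans s2)
  have hab : a = b := inv_injective s3.1
  subst hab
  -- `d = g⁻¹ a g · g a g⁻¹` for all allowed `g`
  have base : ∀ φ : MulAut G, (∀ g ∈ K, φ g = g) → d = (φ X)⁻¹ * a * φ X * (φ X * a * (φ X)⁻¹) := by
    intro φ hφ
    have h1 := congrArg φ hr
    simp only [map_mul] at h1
    rw [hφ d hd, hφ a ha] at h1
    calc d = (φ X)⁻¹ * (φ X * d * φ X) * (φ X)⁻¹ := by group
      _ = (φ X)⁻¹ * a * φ X * (φ X * a * (φ X)⁻¹) := by rw [h1]; group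
  have r1 : ∀ m ∈ L, ∀ l ∈ L, d = (m * X * l)⁻¹ * a * (m * X * l) *
      (m * X * l * a * (m * X * l)⁻¹) := by
    intro m hm l hl
    obtain ⟨φ, hφ1, hφ2⟩ := h.sub m hm l hl
    have := base φ fun g hg => hφ1 g (hKL hg)
    rwa [hφ2] at this
  have r2 : ∀ m ∈ L, ∀ l ∈ L, d = (m * X * l) * a * (m * X * l)⁻¹ *
      ((m * X * l)⁻¹ * a * (m * X * l)) := by
    intro m hm l hl
    obtain ⟨φ, hφ1, hφ2⟩ := h.sub m hm l hl
    obtain ⟨ψ, hψ1, hψ2⟩ := h.inv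
    have := base (φ * ψ) fun g hg => by
      rw [MulAut.mul_apply, hψ1 g (hKL hg), hφ1 g (hKL hg)]
    rw [MulAut.mul_apply, hψ2, map_inv, hφ2] at this
    rwa [inv_inv] at this
  have hy' : d = y⁻¹ * a * y * (y * a * y⁻¹) := by
    obtain ⟨φ, hφ1, hφ2⟩ := hs
    have := base φ hφ1
    rwa [hφ2] at this
  have ha1 : a ≠ 1 := by
    intro h1
    apply hd1
    rw [hy', h1]
    group
  -- `d` commutes with the conjugates
  have hcomm : ∀ m ∈ L, ∀ l ∈ L, (m * X * l * a * (m * X * l)⁻¹) * d =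
      d * (m * X * l * a * (m * X * l)⁻¹) := by
    intro m hm l hl
    have h1 := r1 m hm l hl
    have h2 := r2 m hm l hl
    calc (m * X * l * a * (m * X * l)⁻¹) * d
        = (m * X * l * a * (m * X * l)⁻¹) * ((m * X * l)⁻¹ * a * (m * X * l) *
            (m * X * l * a * (m * X * l)⁻¹)) := by rw [← h1]
      _ = (m * X * l) * a * (m * X * l)⁻¹ * ((m * X * l)⁻¹ * a * (m * X * l)) *
            (m * X * l * a * (m * X * l)⁻¹) := by group
      _ = d * (m * X * l * a * (m * X * l)⁻¹) := by rw [← h2]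
  let A : Subgroup G := closure {g | ∃ l ∈ L, g = l * a * l⁻¹}
  let Y : Subgroup G := closure {g | ∃ m ∈ L, ∃ l ∈ L, g = m * X * l * a * (m * X * l)⁻¹}
  have conj_closure : ∀ (S : Set G) (T : Subgroup G) (c : G), (∀ s ∈ S, c * s * c⁻¹ ∈ T) →
      ∀ g ∈ closure S, c * g * c⁻¹ ∈ T := by
    intro S T c hS g hg
    refine closure_induction (p := fun g _ => c * g * c⁻¹ ∈ T) hS ?_ ?_ ?_ hg
    · simp
    · intro b c' _ _ hb hc'
      have := T.mul_mem hb hc'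
      have e : c * b * c⁻¹ * (c * c' * c⁻¹) = c * (b * c') * c⁻¹ := by group
      rwa [e] at this
    · intro b _ hb
      have := T.inv_mem hb
      have e : (c * b * c⁻¹)⁻¹ = c * b⁻¹ * c⁻¹ := by group
      rwa [e] at this
  have hA1 : ∀ l ∈ L, ∀ g ∈ A, l * g * l⁻¹ ∈ A := by
    intro l hl
    apply conj_closure
    rintro _ ⟨l', hl', rfl⟩
    exact subset_closure ⟨l * l', L.mul_mem hl hl', by group⟩
  have hY1 : ∀ l ∈ L, ∀ g ∈ Y, l * g * l⁻¹ ∈ Y := by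
    intro l hl
    apply conj_closure
    rintro _ ⟨m, hm, l', hl', rfl⟩
    exact subset_closure ⟨l * m, L.mul_mem hl hm, l', hl', by group⟩
  have hAY : ∀ g ∈ A, X * g * X⁻¹ ∈ Y := by
    apply conj_closure
    rintro _ ⟨l', hl', rfl⟩
    exact subset_closure ⟨1, L.one_mem, l', hl', by group⟩
  have hAL : A ≤ L := by
    rw [closure_le]
    rintro _ ⟨l, hl, rfl⟩
    exact L.mul_mem (L.mul_mem hl (hKL ha)) (L.inv_mem hl)
  have hgA : ∀ l ∈ L, l * a * l⁻¹ ∈ A := fun l hl => subset_closure ⟨l, hl, rfl⟩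
  have hdA : d ∈ A := by
    rw [hy']
    refine A.mul_mem ?_ (hgA y hy)
    have := hgA y⁻¹ (L.inv_mem hy)
    rwa [inv_inv] at this
  have hVn : (A ⊔ Y).Normal := by
    have hV : A ⊔ Y = closure ({g | ∃ l ∈ L, g = l * a * l⁻¹} ∪
        {g | ∃ m ∈ L, ∃ l ∈ L, g = m * X * l * a * (m * X * l)⁻¹}) := by
      rw [Subgroup.closure_union]
    apply h.normal
    · intro l hl
      rw [hV]
      apply conj_closure
      rw [← hV]
      rintro s (⟨l', hl', rfl⟩ | ⟨m, hm, l', hl', rfl⟩)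
      · exact (le_sup_left : A ≤ A ⊔ Y) (hA1 l hl _ (hgA l' hl'))
      · exact (le_sup_right : Y ≤ A ⊔ Y) (hY1 l hl _ (subset_closure ⟨m, hm, l', hl', rfl⟩))
    · rw [hV]
      apply conj_closure
      rw [← hV]
      rintro s (⟨l', hl', rfl⟩ | ⟨m, hm, l, hl, rfl⟩)
      · exact (le_sup_right : Y ≤ A ⊔ Y) (hAY _ (hgA l' hl'))
      · -- the main formula
        have hg := r2 (l⁻¹ * m) (L.mul_mem (L.inv_mem hl) hm) l hl
        have e : X * (m * X * l * a * (m * X * l)⁻¹) * X⁻¹ =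
            (X * (l * d * l⁻¹) * X⁻¹) * ((m⁻¹ * l) * a * (m⁻¹ * l)⁻¹)⁻¹ := by
          rw [hg]
          group
        rw [e]
        exact (A ⊔ Y).mul_mem
          ((le_sup_right : Y ≤ A ⊔ Y) (hAY _ (hA1 l hl _ hdA)))
          ((A ⊔ Y).inv_mem ((le_sup_left : A ≤ A ⊔ Y)
            (hgA _ (L.mul_mem (L.inv_mem hm) hl))))
  have haA : a ∈ A := by
    have := hgA 1 L.one_mem
    have e : (1 : G) * a * 1⁻¹ = a := by group
    rwa [e] at this
  have hVtop : A ⊔ Y = ⊤ := by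
    rcases hVn.eq_bot_or_eq_top with h0 | h0
    · exfalso
      have : a ∈ A ⊔ Y := (le_sup_left : A ≤ A ⊔ Y) haA
      rw [h0, mem_bot] at this
      exact ha1 this
    · exact h0
  have hYn : Y.Normal := by
    rw [← normalizer_eq_top_iff, eq_top_iff, ← hVtop, sup_le_iff]
    refine ⟨fun g hg => mem_normalizer_fintype fun c hc => hY1 g (hAL hg) c hc, le_normalizer⟩
  have hYtop : Y = ⊤ := by
    rcases hYn.eq_bot_or_eq_top with h0 | h0
    · exfalso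
      have h1 := hAY a haA
      rw [h0, mem_bot] at h1
      apply ha1
      calc a = X⁻¹ * (X * a * X⁻¹) * X := by group
        _ = 1 := by rw [h1]; group
    · exact h0
  have hYc : Y ≤ centralizer {d} := by
    rw [closure_le]
    rintro _ ⟨m, hm, l, hl, rfl⟩
    rw [SetLike.mem_coe, mem_centralizer_iff]
    intro z hz
    rw [Set.mem_singleton_iff] at hz
    rw [hz]
    exact (hcomm m hm l hl).symm
  apply hd1
  apply h.cen
  intro g
  have hg : g ∈ Y := by rw [hYtop]; trivial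
  have := hYc hg
  rw [mem_centralizer_iff] at this
  exact this d rfl

/-- the elements `a X b X c` with `a, b, c` in `K` are distinct. -/
lemma Let.inj [Finite G] [IsSimpleGroup G] (h : Let L X) (hKL : K ≤ L) (hy : y ∈ L)
    (hs : ∃ φ : MulAut G, (∀ g ∈ K, φ g = g) ∧ φ X = y) {a b c a' b' c' : G} (ha : a ∈ K)
    (hb : b ∈ K) (hc : c ∈ K) (ha' : a' ∈ K) (hb' : b' ∈ K) (hc' : c' ∈ K)
    (hr : a * X * b * X * c = a' * X * b' * X * c') : a = a' ∧ b = b' ∧ c = c' := by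
  obtain ⟨φ, hφ1, hφ2⟩ := h.sub 1 L.one_mem b'⁻¹ (L.inv_mem (hKL hb'))
  have h1 := congrArg φ hr
  simp only [map_mul] at h1
  rw [hφ1 a (hKL ha), hφ1 b (hKL hb), hφ1 c (hKL hc), hφ1 a' (hKL ha'), hφ1 b' (hKL hb'),
    hφ1 c' (hKL hc'), hφ2] at h1
  have h2 : X * (b'⁻¹ * b) * X = (a⁻¹ * a') * (X * X) * (b'⁻¹ * c' * c⁻¹ * b') := by
    calc X * (b'⁻¹ * b) * X
        = a⁻¹ * (a * (1 * X * b'⁻¹) * b * (1 * X * b'⁻¹) * c) * (c⁻¹ * b') := by group
      _ = (a⁻¹ * a') * (X * X) * (b'⁻¹ * c' * c⁻¹ * b') := by rw [h1]; group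
  have h3 := h.two hKL hy hs (K.mul_mem (K.inv_mem ha) ha')
    (K.mul_mem (K.mul_mem (K.mul_mem (K.inv_mem hb') hc') (K.inv_mem hc)) hb')
    (K.mul_mem (K.inv_mem hb') hb) h2
  have h4 : b' = b := by rwa [inv_mul_eq_one] at h3
  subst h4
  have h5 : 1 * (X * X) * 1 = (a⁻¹ * a') * (X * X) * (b'⁻¹ * c' * c⁻¹ * b') := by
    rw [← h2]; group
  have h6 := h.sq' L.one_mem L.one_mem (L.mul_mem (L.inv_mem (hKL ha)) (hKL ha'))
    (L.mul_mem (L.mul_mem (L.mul_mem (L.inv_mem (hKL hb')) (hKL hc')) (L.inv_mem (hKL hc)))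
      (hKL hb')) h5
  refine ⟨?_, rfl, ?_⟩
  · exact (inv_mul_eq_one.mp h6.1.symm)
  · have h7 : c' * c⁻¹ = 1 := by
      calc c' * c⁻¹ = b' * (b'⁻¹ * c' * c⁻¹ * b') * b'⁻¹ := by group
        _ = 1 := by rw [← h6.2]; group
    exact (mul_inv_eq_one.mp h7).symm

end two

end Pool.Agent.H5.CB
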